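import Pool.Agent.Q5.SH.Stm
import Pool.Agent.Q257.AR.Cyc
import Pool.Agent.Q125.AR.Base
import Pool.Agent.Q290.SG.SM
import Pool.Agent.Q285.SG.PW

/-! Project SH (helper5), job NC: a character of `Dv / NQ` whose Artin character lives on the
cyclotomic field is trivial. -/

set_option autoImplicit false
set_option linter.unusedSectionVars false

namespace Pool.Agent.Q262.SH

open NumberField IsDedekindDomain Pool.Agent.Q92.AR Pool.Agent.Q5.SG Pool.Agent.Q5.SH
  Pool.Agent.Y18.LC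

/-- the `(p - 1)`-th powers modulo `p ^ (n + 1)` are powers of `1 + p a`, `a` prime to `p` -/
theorem mem_zpowers {p : ℕ} (hp : p.Prime) (hp2 : p ≠ 2) (n : ℕ) (a : ℤ) (ha : ¬ (p : ℤ) ∣ a)
    (x u : (ZMod (p ^ (n + 1)))ˣ) (hu : (u : ZMod (p ^ (n + 1))) = 1 + p * a) :
    x ^ (p - 1) ∈ Subgroup.zpowers u := by
  classical
  have : NeZero (p ^ (n + 1)) := ⟨pow_ne_zero _ hp.ne_zero⟩
  have hcyc : IsCyclic (ZMod (p ^ (n + 1)))ˣ := ZMod.isCyclic_units_of_prime_pow p hp hp2 (n + 1)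
  have hord : orderOf u = p ^ n := by
    rw [← orderOf_units, hu]
    exact ZMod.orderOf_one_add_mul_prime hp hp2 a ha n
  have hA : (Finset.univ.filter (fun y : (ZMod (p ^ (n + 1)))ˣ => y ^ (p ^ n) = 1)).card ≤ p ^ n :=
    IsCyclic.card_pow_eq_one_le (pow_pos hp.pos n)
  have hZ : (Finset.univ.filter (fun y : (ZMod (p ^ (n + 1)))ˣ => y ∈ Subgroup.zpowers u)).card =
      p ^ n := by
    rw [← hord, ← Nat.card_zpowers, Nat.card_eq_fintype_card, Fintype.card_subtype]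
  have hZA : Finset.univ.filter (fun y : (ZMod (p ^ (n + 1)))ˣ => y ∈ Subgroup.zpowers u) ⊆
      Finset.univ.filter (fun y : (ZMod (p ^ (n + 1)))ˣ => y ^ (p ^ n) = 1) := by
    intro y hy
    rw [Finset.mem_filter] at hy ⊢
    obtain ⟨k, hk⟩ := hy.2
    refine ⟨Finset.mem_univ _, ?_⟩
    rw [← hk]
    show (u ^ k) ^ (p ^ n) = 1
    rw [← zpow_natCast, ← zpow_mul, mul_comm, zpow_mul, zpow_natCast, ← hord, pow_orderOf_eq_one,
      one_zpow]
  have hE := Finset.eq_of_subset_of_card_le hZA (by rw [hZ]; exact hA)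
  have hx : x ^ (p - 1) ∈ Finset.univ.filter (fun y : (ZMod (p ^ (n + 1)))ˣ => y ^ (p ^ n) = 1) := by
    rw [Finset.mem_filter]
    refine ⟨Finset.mem_univ _, ?_⟩
    rw [← pow_mul, mul_comm, ← Nat.totient_prime_pow_succ hp n]
    exact ZMod.pow_totient x
  rw [← hE, Finset.mem_filter] at hx
  exact hx.2

section
variable {K : Type} [Field K] [NumberField K] {M : Type} [Field M] [NumberField M] [Algebra K M]
  [IsGalois K M]

theorem psi_eq (ψ : (M ≃ₐ[K] M) →* ℂˣ) (ζ : M) (hψ : ∀ g : M ≃ₐ[K] M, g ζ = ζ → ψ g = 1)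
    {g h : M ≃ₐ[K] M} (hgh : g ζ = h ζ) : ψ g = ψ h := by
  have h1 : (h⁻¹ * g) ζ = ζ := by
    rw [AlgEquiv.mul_apply, hgh, ← AlgEquiv.mul_apply, inv_mul_cancel, AlgEquiv.one_apply]
  have h2 := hψ _ h1
  rw [map_mul, map_inv, inv_mul_eq_one] at h2
  exact h2.symm

theorem apply_eq {n : ℕ} [NeZero n] {ζ : M} (hζ : IsPrimitiveRoot ζ n) {g h : M ≃ₐ[K] M}
    (e : hζ.autToPow K g = hζ.autToPow K h) : g ζ = h ζ := by
  rw [← hζ.autToPow_spec K g, ← hζ.autToPow_spec K h, e]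

theorem kap_frob {n : ℕ} [NeZero n] {ζ : M} (hζ : IsPrimitiveRoot ζ n)
    {v : HeightOneSpectrum (𝓞 K)} (hv : (n : 𝓞 K) ∉ v.asIdeal) :
    ((hζ.autToPow K (frob M v) : (ZMod n)ˣ) : ZMod n) = (Ideal.absNorm v.asIdeal : ZMod n) := by
  have h1 := Pool.Agent.Q257.AR.frob_zeta hζ hv (frob_spec (M := M) v)
  rw [← hζ.autToPow_spec K (frob M v)] at h1
  have h2 : ∀ a : ℕ, ζ ^ (a % n) = ζ ^ a := by
    intro a
    have h := pow_mod_orderOf ζ a
    rwa [← hζ.eq_orderOf] at h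
  have hn : 0 < n := Nat.pos_of_ne_zero (NeZero.ne n)
  have h3 := hζ.pow_inj (Nat.mod_lt _ hn) (Nat.mod_lt _ hn) ((h2 _).trans (h1.trans (h2 _).symm))
  have h4 := (ZMod.natCast_eq_natCast_iff _ _ n).2 h3
  rwa [ZMod.natCast_zmod_val] at h4

theorem exists_g {n : ℕ} [NeZero n] {ζ : M} (hζ : IsPrimitiveRoot ζ n) (ψ : (M ≃ₐ[K] M) →* ℂˣ)
    (k : HeightOneSpectrum (𝓞 K) → ℕ) (S : Finset (HeightOneSpectrum (𝓞 K))) :
    ∃ g : M ≃ₐ[K] M, ψ g = ∏ v ∈ S, ψ (frob M v) ^ k v ∧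
      hζ.autToPow K g = ∏ v ∈ S, hζ.autToPow K (frob M v) ^ k v := by
  classical
  induction S using Finset.induction_on with
  | empty => exact ⟨1, by simp, by simp⟩
  | insert v S hv ih =>
    obtain ⟨g, h1, h2⟩ := ih
    refine ⟨frob M v ^ k v * g, ?_, ?_⟩
    · rw [Finset.prod_insert hv, map_mul, map_pow, h1]
    · rw [Finset.prod_insert hv, map_mul, map_pow, h2]

/-- the element of the Galois group belonging to a principal divisor -/
theorem exists_gx {n : ℕ} [NeZero n] {ζ : M} (hζ : IsPrimitiveRoot ζ n) (ψ : (M ≃ₐ[K] M) →* ℂˣ)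
    (x : 𝓞 K) (hx : x ≠ 0) (u : Kˣ) (hu : (u : K) = x)
    (hn : ∀ v : HeightOneSpectrum (𝓞 K), (n : 𝓞 K) ∈ v.asIdeal → prin u v = 0) :
    ∃ g : M ≃ₐ[K] M, Additive.ofMul (ψ g) = art ψ (prin u) ∧
      ((hζ.autToPow K g : (ZMod n)ˣ) : ZMod n) = ((Algebra.norm ℤ x).natAbs : ZMod n) := by
  obtain ⟨g, h1, h2⟩ := exists_g hζ ψ (fun v => (prin u v).toNat) (prin u).support
  have hpos : ∀ v, 0 ≤ prin u v := by
    intro v
    rw [Pool.Agent.Q257.AR.prin_eq x hx u hu v]
    exact Int.natCast_nonneg _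
  refine ⟨g, ?_, ?_⟩
  · rw [h1, ofMul_prod, Pool.Agent.Q125.AR.art_eq_sum]
    refine Finset.sum_congr rfl fun v _ => ?_
    rw [ofMul_pow]
    conv_rhs => rw [← Int.toNat_of_nonneg (hpos v)]
    rw [natCast_zsmul]
  · rw [h2, ← Ideal.absNorm_span_singleton, Pool.Agent.Q257.AR.absNorm_eq x hx u hu]
    rw [Units.coe_prod, Nat.cast_prod]
    refine Finset.prod_congr rfl fun v hv => ?_
    rw [Units.val_pow_eq_pow_val, Nat.cast_pow, kap_frob hζ]
    intro h
    rw [Finsupp.mem_support_iff] at hv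
    exact hv (hn v h)

end

theorem norm_p {p : ℕ} [Fact p.Prime] : ‖(p : ℂ_[p])‖ = (p : ℝ)⁻¹ := Pool.Agent.Q285.SG.norm_p

/-- **JOB SH-NC** -/
theorem nc : Pool.Agent.Q5.SH.J_NC := by
  intro hTR1 hMV p hp hp2 K M _ _ _ _ _ _ hun S hS m hm hor T χ hχ hTp ζ hζ N' hN' hRam ψ₀ hψ₀ ψ
    hψart hψζ
  have hpm : p ^ m ≠ 0 := pow_ne_zero _ hp.out.ne_zero
  have hne : NeZero (p ^ m) := ⟨hpm⟩
  have key : ∀ h : M ≃ₐ[K] M, ψ h ^ (p - 1) = 1 := by
    intro h
    obtain ⟨n, rfl⟩ : ∃ n, m = n + 1 := ⟨m - 1, by omega⟩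
    rcases hor with h1 | hτ
    · have h2 : (hζ.autToPow K h) ^ (p - 1) = 1 := by
        obtain rfl : n = 0 := by omega
        have h5 := ZMod.pow_totient (hζ.autToPow K h)
        rwa [Nat.totient_prime_pow_succ hp.out 0, pow_zero, one_mul] at h5
      have h3 : (h ^ (p - 1)) ζ = (1 : M ≃ₐ[K] M) ζ :=
        apply_eq hζ (by rw [map_pow, h2, map_one])
      have h4 := psi_eq ψ ζ hψζ h3
      rwa [map_pow, map_one] at h4
    · obtain ⟨a, ha1, ha2⟩ := hTR1 p K hun S hS hτ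
      have hK0 : N' * ∏ v ∈ T, Ideal.absNorm v.asIdeal ≠ 0 := by
        refine mul_ne_zero hN' (Finset.prod_ne_zero_iff.2 fun v _ => ?_)
        rw [Ne, Ideal.absNorm_eq_zero_iff]
        exact v.ne_bot
      obtain ⟨e, n₁, hn₁, hK⟩ := Nat.exists_eq_pow_mul_and_not_dvd hK0 p hp.out.ne_one
      have hmemK : ∀ v : HeightOneSpectrum (𝓞 K),
          ((N' * ∏ v ∈ T, Ideal.absNorm v.asIdeal : ℕ) : 𝓞 K) ∈ v.asIdeal →
          (p : 𝓞 K) ∈ v.asIdeal ∨ (n₁ : 𝓞 K) ∈ v.asIdeal := by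
        intro v hv
        rw [hK, Nat.cast_mul, Nat.cast_pow] at hv
        rcases v.isPrime.mem_or_mem hv with h6 | h6
        · exact Or.inl (v.isPrime.mem_of_pow_mem _ h6)
        · exact Or.inr h6
      have hco : Nat.Coprime (p ^ 2) n₁ :=
        Nat.Coprime.pow_left 2 ((Nat.Prime.coprime_iff_not_dvd hp.out).2 hn₁)
      obtain ⟨c, hc1, hc2⟩ := Nat.chineseRemainder hco 1 0
      have hcp : ¬ p ∣ c := by
        intro h6
        have h7 : c ≡ 1 [MOD p] := hc1.of_dvd (Dvd.intro_left (p ^ 1) (by ring))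
        have h8 : p ∣ 1 := (Nat.ModEq.dvd_iff h7 dvd_rfl).1 h6
        exact hp.out.one_lt.ne' (Nat.dvd_one.1 h8)
      have hcn : n₁ ∣ c := (Nat.modEq_zero_iff_dvd).1 hc2
      set x : 𝓞 K := 1 + (p : ℤ) • ((c : 𝓞 K) * a) with hx
      obtain ⟨r, hr⟩ := Algebra.norm_one_add_smul (A := ℤ) (B := 𝓞 K) (p : ℤ) ((c : 𝓞 K) * a)
      have htr : Algebra.trace ℤ (𝓞 K) ((c : 𝓞 K) * a) = c * Algebra.trace ℤ (𝓞 K) a := by
        have h6 : ((c : 𝓞 K) * a) = (c : ℤ) • a := by
          rw [zsmul_eq_mul]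
          push_cast
          rfl
        rw [h6, map_smul, smul_eq_mul]
      rw [htr, ← hx] at hr
      set t : ℤ := c * Algebra.trace ℤ (𝓞 K) a + r * p with ht
      have hnorm : Algebra.norm ℤ x = 1 + p * t := by
        rw [hr, ht]
        ring
      have htp : ¬ (p : ℤ) ∣ t := by
        intro h6
        rw [ht] at h6
        have h7 : (p : ℤ) ∣ c * Algebra.trace ℤ (𝓞 K) a :=
          (dvd_add_left (Dvd.intro_left r rfl)).1 h6
        rcases (Nat.prime_iff_prime_int.1 hp.out).dvd_or_dvd h7 with h8 | h8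
        · exact hcp (Int.natCast_dvd_natCast.1 h8)
        · exact ha2 h8
      have hx0 : x ≠ 0 := by
        intro h6
        rw [h6, Algebra.norm_zero] at hnorm
        have h7 : (p : ℤ) ∣ 1 := ⟨-t, by linarith⟩
        have h8 : p ∣ 1 := by exact_mod_cast h7
        exact hp.out.one_lt.ne' (Nat.dvd_one.1 h8)
      have hxK : (x : K) ≠ 0 := by
        intro h6
        exact hx0 (RingOfIntegers.coe_eq_zero_iff.1 h6)
      set u : Kˣ := Units.mk0 (x : K) hxK with hu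
      have hx1 : x - 1 = (p : 𝓞 K) * ((c : 𝓞 K) * a) := by
        rw [hx, zsmul_eq_mul]
        push_cast
        ring
      have hOne : ∀ v : HeightOneSpectrum (𝓞 K), ((p : 𝓞 K) ∈ v.asIdeal ∨ (n₁ : 𝓞 K) ∈ v.asIdeal) →
          u ∈ OneAt v := by
        intro v hv
        rw [mem_OneAt]
        have h6 : ((u : K) - 1) = algebraMap (𝓞 K) K (x - 1) := by
          rw [map_sub, map_one]
          rfl
        rw [h6, v.valuation_lt_one_iff_mem, hx1]
        rcases hv with h7 | h7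
        · exact Ideal.mul_mem_right _ _ h7
        · apply Ideal.mul_mem_left
          apply Ideal.mul_mem_right
          obtain ⟨k, rfl⟩ := hcn
          rw [Nat.cast_mul]
          exact Ideal.mul_mem_right _ _ h7
      have hzero : ∀ v : HeightOneSpectrum (𝓞 K), ((p : 𝓞 K) ∈ v.asIdeal ∨ (n₁ : 𝓞 K) ∈ v.asIdeal) →
          prin u v = 0 := fun v hv =>
        Pool.Agent.Q125.AR.prin_eq_zero_of_valuation (val_eq_one_of_sub (mem_OneAt.1 (hOne v hv)))
      have hQ : u ∈ Qg S T χ := by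
        rw [mem_Qg]
        refine ⟨?_, ?_⟩
        · intro σ hσ
          have hσ' : σ ∈ S := by
            have h6 : σ.comp (algebraMap K K) = σ := by
              ext y
              rfl
            rwa [h6] at hσ
          have h6 : σ ((u : Kˣ) : K) - 1 = (p : ℂ_[p]) * (((c : ℕ) : ℂ_[p]) * σ (a : K)) := by
            have h7 : ((u : Kˣ) : K) = 1 + (p : K) * ((c : K) * (a : K)) := by
              have h8 : ((u : Kˣ) : K) = algebraMap (𝓞 K) K x := rfl
              rw [h8, show x = 1 + (p : 𝓞 K) * ((c : 𝓞 K) * a) by rw [← hx1]; ring]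
              rw [map_add, map_one, map_mul, map_mul, map_natCast, map_natCast]
            rw [h7, map_add, map_one, map_mul, map_mul, map_natCast, map_natCast]
            ring
          rw [h6, norm_mul, norm_mul, norm_p]
          have h7 : ‖((c : ℕ) : ℂ_[p])‖ ≤ 1 := by
            have h8 := norm_int_le σ ((c : ℕ) : 𝓞 K)
            have e9 : ((((c : ℕ) : 𝓞 K)) : K) = (c : K) := map_natCast (algebraMap (𝓞 K) K) c
            rwa [e9, map_natCast] at h8
          have h9 : ‖σ (a : K)‖ ≤ (p : ℝ)⁻¹ :=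
            Pool.Agent.Q290.SG.sm p K hun σ (a : K) (ha1 σ hσ')
          have h10 : 0 ≤ ((p : ℝ)⁻¹) := by positivity
          calc (p : ℝ)⁻¹ * (‖((c : ℕ) : ℂ_[p])‖ * ‖σ (a : K)‖) ≤
              (p : ℝ)⁻¹ * (1 * (p : ℝ)⁻¹) :=
                mul_le_mul_of_nonneg_left (mul_le_mul h7 h9 (norm_nonneg _) zero_le_one) h10
            _ = ((p : ℝ)⁻¹) ^ 2 := by ring
        · intro v hv
          rw [mem_Loc]
          refine ⟨1, ?_, fun w _ _ => (OneAt w).one_mem, by rw [prin_one, map_zero]⟩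
          rw [one_div]
          apply (OneAt v).inv_mem
          apply hOne
          apply hmemK
          rw [Nat.cast_mul]
          apply Ideal.mul_mem_left
          rw [Nat.cast_prod]
          obtain ⟨k, hk⟩ := Finset.dvd_prod_of_mem
            (fun w : HeightOneSpectrum (𝓞 K) => ((Ideal.absNorm w.asIdeal : ℕ) : 𝓞 K)) hv
          rw [hk]
          exact Ideal.mul_mem_right _ _ (Ideal.absNorm_mem _)
      have hNQ : prin u ∈ NQ S T χ :=
        mem_NQ.2 ⟨u, hQ, 0, 0, zero_mem _, by rw [smul_zero, add_zero, add_zero]⟩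
      have hPr : prin u ∈ Pr K N' := by
        intro v hv
        apply hzero v
        apply hmemK
        rw [Nat.cast_mul]
        exact Ideal.mul_mem_right _ _ hv
      have hart : art ψ (prin u) = 0 := by rw [hψart _ hPr]; exact hψ₀ _ hNQ
      obtain ⟨g, hg1, hg2⟩ := exists_gx hζ ψ x hx0 u rfl (fun v hv => by
        apply hzero v
        left
        rw [Nat.cast_pow] at hv
        exact v.isPrime.mem_of_pow_mem _ hv)
      have hψg : ψ g = 1 := by
        rw [hart] at hg1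
        exact ofMul_eq_zero.1 hg1
      have hU : (((hζ.autToPow K g) ^ 2 : (ZMod (p ^ (n + 1)))ˣ) : ZMod (p ^ (n + 1))) =
          1 + p * ((2 * t + p * t ^ 2 : ℤ) : ZMod (p ^ (n + 1))) := by
        rw [Units.val_pow_eq_pow_val, hg2, hnorm]
        have h6 : (((1 + (p : ℤ) * t).natAbs : ℕ) : ZMod (p ^ (n + 1))) ^ 2 =
            (((1 + (p : ℤ) * t) ^ 2 : ℤ) : ZMod (p ^ (n + 1))) := by
          rw [← Int.natAbs_sq (1 + (p : ℤ) * t), Int.cast_pow, Int.cast_natCast]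
        rw [h6]
        push_cast
        ring
      have hnd : ¬ (p : ℤ) ∣ 2 * t + p * t ^ 2 := by
        intro h6
        have h7 : (p : ℤ) ∣ 2 * t := (dvd_add_left (Dvd.intro _ rfl)).1 h6
        rcases (Nat.prime_iff_prime_int.1 hp.out).dvd_or_dvd h7 with h8 | h8
        · have h9 : p ∣ 2 := by exact_mod_cast h8
          exact hp2 ((Nat.prime_dvd_prime_iff_eq hp.out Nat.prime_two).1 h9)
        · exact htp h8
      obtain ⟨i, hi⟩ := mem_zpowers hp.out hp2 n _ hnd (hζ.autToPow K h) _ hU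
      have h3 : (h ^ (p - 1)) ζ = ((g ^ 2) ^ i) ζ :=
        apply_eq hζ (by rw [map_pow, map_zpow, map_pow]; exact hi.symm)
      have h4 := psi_eq ψ ζ hψζ h3
      rw [map_pow, map_zpow, map_pow, hψg, one_pow, one_zpow] at h4
      exact h4
  have hPr0 : ∀ D ∈ Pr K N', ψ₀ D = 0 := by
    classical
    intro D hD
    rw [← hψart D hD, Pool.Agent.Q125.AR.art_eq_sum]
    apply Finset.sum_eq_zero
    intro v hv
    have hvN : (N' : 𝓞 K) ∉ v.asIdeal := fun h => (Finsupp.mem_support_iff.1 hv) (hD v h)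
    have hs : Finsupp.single v (1 : ℤ) ∈ Pr K N' := by
      intro w hw
      rw [Finsupp.single_apply, if_neg]
      rintro rfl
      exact hvN hw
    have h1 := hψart _ hs
    rw [art_single, one_smul] at h1
    have h2 : p • ψ₀ (Finsupp.single v 1) = 0 := by
      rw [← map_nsmul]
      exact hψ₀ _ (mem_NQ.2 ⟨1, (Qg S T χ).one_mem, Finsupp.single v 1, 0, zero_mem _, by
        rw [prin_one, zero_add, add_zero]⟩)
    rw [← h1, ← ofMul_pow] at h2
    have h3 : ψ (frob M v) ^ p = 1 := ofMul_eq_zero.1 h2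
    have h4 := key (frob M v)
    have h5 : ψ (frob M v) = 1 := by
      rw [← pow_sub_one_mul hp.out.ne_zero, h4, one_mul] at h3
      exact h3
    rw [h5, ofMul_one, smul_zero]
  refine AddMonoidHom.ext fun D => ?_
  obtain ⟨D', hD', hDD⟩ := hMV p K S T χ hχ N' hN' D
  have h1 := hψ₀ _ hDD
  rw [map_sub, hPr0 D' hD', sub_zero] at h1
  rw [h1]
  rfl

end Pool.Agent.Q262.SH
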